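import Pool.Agent.helper91.RB.Spec2

set_option autoImplicit false
set_option linter.unusedSectionVars false
set_option linter.style.haveILetI false

namespace Pool.Agent.RB

open NumberField IsDedekindDomain Module
open scoped nonZeroDivisors Real Classical Pointwise

section
variable {F K L : Type} [Field F] [NumberField F] [Field K] [NumberField K] [Field L] [NumberField L]
  [Algebra F K] [Algebra K L] [Algebra F L] [IsScalarTower F K L] [IsAbelianGalois F K] [IsAbelianGalois F L]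

theorem INF_res (σ : L ≃ₐ[F] L) (x : 𝓞 K) :
    algebraMap (𝓞 K) (𝓞 L) ((AlgEquiv.restrictNormalHom K σ : K ≃ₐ[F] K) • x) =
      σ • (algebraMap (𝓞 K) (𝓞 L) x) := by
  apply RingOfIntegers.ext
  exact AlgEquiv.restrictNormal_commutes σ K (x : K)

theorem INF_comm : SMulCommClass (L ≃ₐ[K] L) (𝓞 K) (𝓞 L) where
  smul_comm g a x := by
    rw [Algebra.smul_def, Algebra.smul_def, smul_mul']
    congr 1
    apply RingOfIntegers.ext
    exact g.commutes (a : K)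

/-- restriction of scalars acts in the same way -/
theorem INF_rs (g : L ≃ₐ[K] L) (x : 𝓞 L) : (g.restrictScalars F) • x = g • x := by
  apply RingOfIntegers.ext
  rfl

theorem INF_rr (g : L ≃ₐ[K] L) :
    (AlgEquiv.restrictNormalHom K (g.restrictScalars F) : K ≃ₐ[F] K) = 1 := by
  ext x
  apply (algebraMap K L).injective
  have h := AlgEquiv.restrictNormal_commutes (g.restrictScalars F) K x
  have h2 : (AlgEquiv.restrictNormalHom K (g.restrictScalars F) : K ≃ₐ[F] K) x =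
    ((g.restrictScalars F).restrictNormal K) x := rfl
  rw [h2, h]
  exact g.commutes x

/-- membership in a translate -/
theorem INF_mem {G : Type} [Group G] [MulSemiringAction G (𝓞 L)] (g : G) (I : Ideal (𝓞 L)) (x : 𝓞 L) :
    x ∈ g • I ↔ g⁻¹ • x ∈ I := by
  rw [← Ideal.smul_mem_pointwise_smul_iff (a := g⁻¹), inv_smul_smul]

/-- an element of the inertia group of `P ∩ K` lifts to an element of the inertia group of `P` -/
theorem INF_lift (P : HOS L) (τ : K ≃ₐ[F] K) (hτ : ∀ x : 𝓞 K, τ • x - x ∈ (P.under (𝓞 K)).asIdeal) :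
    ∃ σ : L ≃ₐ[F] L, AlgEquiv.restrictNormalHom K σ = τ ∧ ∀ x : 𝓞 L, σ • x - x ∈ P.asIdeal := by
  haveI : IsGalois K L := IsGalois.tower_top_of_isGalois F K L
  haveI : SMulCommClass (L ≃ₐ[K] L) (𝓞 K) (𝓞 L) := INF_comm
  haveI hP : P.asIdeal.IsPrime := P.isPrime
  obtain ⟨σ₀, hσ₀⟩ := AlgEquiv.restrictNormalHom_surjective (F := F) (E := L) (K₁ := K) τ
  haveI hP2 : (σ₀ • P.asIdeal).IsPrime := hP.smul σ₀
  have hu : Ideal.under (𝓞 K) (σ₀ • P.asIdeal) = Ideal.under (𝓞 K) P.asIdeal := by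
    ext x
    rw [Ideal.under_def, Ideal.under_def, Ideal.mem_comap, Ideal.mem_comap]
    have hinv : ∀ y : 𝓞 K, τ⁻¹ • y ∈ (P.under (𝓞 K)).asIdeal ↔ y ∈ (P.under (𝓞 K)).asIdeal := by
      intro y
      have h1 := hτ (τ⁻¹ • y)
      rw [smul_inv_smul] at h1
      constructor
      · intro h
        have := Ideal.add_mem _ h1 h
        simpa using this
      · intro h
        have := Ideal.sub_mem _ h h1
        simpa using this
    rw [INF_mem, ← INF_res, map_inv, hσ₀]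
    exact hinv x
  obtain ⟨ρ, hρ⟩ := Algebra.IsInvariant.exists_smul_of_under_eq (𝓞 K) (𝓞 L) (L ≃ₐ[K] L)
    (σ₀ • P.asIdeal) P.asIdeal hu
  set σ₁ : L ≃ₐ[F] L := ρ.restrictScalars F * σ₀ with hσ₁
  have hr1 : AlgEquiv.restrictNormalHom K σ₁ = τ := by
    rw [hσ₁, map_mul, INF_rr, one_mul, hσ₀]
  have hst : σ₁ • P.asIdeal = P.asIdeal := by
    rw [hσ₁, mul_smul]
    conv_rhs => rw [hρ]
    ext x
    rw [INF_mem, INF_mem ρ]
    have : (ρ.restrictScalars F)⁻¹ • x = ρ⁻¹ • x := by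
      rw [inv_smul_eq_iff, INF_rs, smul_inv_smul]
    rw [this]
  let e : 𝓞 L ≃+* 𝓞 L := MulSemiringAction.toRingEquiv (L ≃ₐ[F] L) (𝓞 L) σ₁
  have he : P.asIdeal = Ideal.map (e : 𝓞 L →+* 𝓞 L) P.asIdeal := by
    conv_lhs => rw [← hst, Ideal.pointwise_smul_def]
    rfl
  let f : (𝓞 L ⧸ P.asIdeal) ≃+* (𝓞 L ⧸ P.asIdeal) := Ideal.quotientEquiv P.asIdeal P.asIdeal e he
  have hfe : ∀ x : 𝓞 L, f (Ideal.Quotient.mk P.asIdeal x) = Ideal.Quotient.mk P.asIdeal (σ₁ • x) := by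
    intro x
    rfl
  haveI hlo : P.asIdeal.LiesOver (P.under (𝓞 K)).asIdeal := ⟨rfl⟩
  have hf : ∀ r : 𝓞 K ⧸ (P.under (𝓞 K)).asIdeal,
      f (algebraMap _ (𝓞 L ⧸ P.asIdeal) r) = algebraMap _ (𝓞 L ⧸ P.asIdeal) r := by
    intro r
    obtain ⟨a, rfl⟩ := Ideal.Quotient.mk_surjective r
    rw [Ideal.Quotient.algebraMap_mk_of_liesOver, hfe, Ideal.Quotient.eq, ← INF_res, hr1, ← map_sub]
    have := hτ a
    exact this
  let φ : (𝓞 L ⧸ P.asIdeal) ≃ₐ[𝓞 K ⧸ (P.under (𝓞 K)).asIdeal] (𝓞 L ⧸ P.asIdeal) :=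
    AlgEquiv.ofRingEquiv (f := f) hf
  obtain ⟨g, hg⟩ := Ideal.Quotient.stabilizerHom_surjective (L ≃ₐ[K] L) (P.under (𝓞 K)).asIdeal P.asIdeal φ
  have hgx : ∀ x : 𝓞 L, (g : L ≃ₐ[K] L) • x - σ₁ • x ∈ P.asIdeal := by
    intro x
    rw [← Ideal.Quotient.eq, ← hfe]
    have h1 := congrArg (fun (h : (𝓞 L ⧸ P.asIdeal) ≃ₐ[𝓞 K ⧸ (P.under (𝓞 K)).asIdeal] (𝓞 L ⧸ P.asIdeal)) =>
      h (Ideal.Quotient.mk P.asIdeal x)) hg
    exact h1
  refine ⟨((g : L ≃ₐ[K] L).restrictScalars F)⁻¹ * σ₁, ?_, ?_⟩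
  · rw [map_mul, map_inv, INF_rr, inv_one, one_mul, hr1]
  · intro x
    have hgP : (g : L ≃ₐ[K] L) • P.asIdeal = P.asIdeal := g.2
    have h1 := hgx x
    have h2 : (g : L ≃ₐ[K] L)⁻¹ • ((g : L ≃ₐ[K] L) • x - σ₁ • x) ∈ P.asIdeal := by
      rw [← INF_mem, hgP]
      exact h1
    rw [smul_sub, inv_smul_smul] at h2
    have h3 : ((g : L ≃ₐ[K] L).restrictScalars F)⁻¹ • (σ₁ • x) = (g : L ≃ₐ[K] L)⁻¹ • (σ₁ • x) := by
      rw [inv_smul_eq_iff, INF_rs, smul_inv_smul]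
    rw [mul_smul, h3]
    rw [← Ideal.neg_mem_iff, neg_sub]
    exact h2

theorem INF_uu (P : HOS L) : (P.under (𝓞 K)).under (𝓞 F) = P.under (𝓞 F) :=
  HeightOneSpectrum.ext (Ideal.under_under P.asIdeal)

theorem INF_unr (hCHV : CHV_stmt) (ψ : (K ≃ₐ[F] K) →* ℂˣ) (p : HOS F) :
    unr (ψ.comp (AlgEquiv.restrictNormalHom K : (L ≃ₐ[F] L) →* (K ≃ₐ[F] K))) p ↔ unr ψ p := by
  constructor
  · intro h
    obtain ⟨P, hP⟩ := (hCHV F L p).1
    refine (hCHV F K p).2.2.2.2.2 ψ ⟨P.under (𝓞 K), ?_, ?_⟩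
    · rw [INF_uu, hP]
    · intro τ hτ
      obtain ⟨σ, hσ, hσ2⟩ := INF_lift P τ hτ
      rw [← hσ]
      exact h P hP σ hσ2
  · intro h P hP σ hσ
    refine h (P.under (𝓞 K)) (by rw [INF_uu, hP]) (AlgEquiv.restrictNormalHom K σ) ?_
    intro x
    change algebraMap (𝓞 K) (𝓞 L) _ ∈ P.asIdeal
    rw [map_sub, INF_res]
    exact hσ _

end

theorem INF (hCHV : CHV_stmt) : INF_stmt := by
  intro F K L _ _ _ _ _ _ _ _ _ _ _ _ ψ p
  refine ⟨INF_unr hCHV ψ p, ?_⟩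
  by_cases hu : unr ψ p
  · have hu2 := (INF_unr (L := L) hCHV ψ p).2 hu
    obtain ⟨P, hP⟩ := (hCHV F L p).1
    obtain ⟨σ, hσ⟩ := (hCHV F L p).2.1 P hP
    rw [(hCHV F L p).2.2.1 _ σ hu2 ⟨P, hP, hσ⟩,
      (hCHV F K p).2.2.1 ψ (AlgEquiv.restrictNormalHom K σ) hu ⟨P.under (𝓞 K), by rw [INF_uu, hP], ?_⟩]
    · rfl
    · intro x
      change algebraMap (𝓞 K) (𝓞 L) _ ∈ P.asIdeal
      rw [map_sub, INF_res, map_pow]
      exact hσ _
  · have hu2 : ¬ unr (ψ.comp (AlgEquiv.restrictNormalHom K : (L ≃ₐ[F] L) →* (K ≃ₐ[F] K))) p :=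
      fun h => hu ((INF_unr hCHV ψ p).1 h)
    rw [(hCHV F L p).2.2.2.1 _ hu2, (hCHV F K p).2.2.2.1 _ hu]

end Pool.Agent.RB
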